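import Pool.Agent.Helper92.PW.St

/-!
# Project PW (MP_ad0dc2_nt), module DEG: degenerate conics
-/

set_option autoImplicit false

open Finset

noncomputable section

namespace Pool.Agent.Helper37.PW

open Pool.Agent.Helper92.PW

private lemma Qf_eq (Q : Fin 6 → ℤ) (p : Pt) : Qf Q p = Q 0 * p.1 ^ 2 + Q 1 * (p.1 * p.2.1) +
    Q 2 * p.2.1 ^ 2 + Q 3 * (p.1 * p.2.2) + Q 4 * (p.2.1 * p.2.2) + Q 5 * p.2.2 ^ 2 := by
  unfold Qf ver
  rw [Fin.sum_univ_six]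
  rfl

private lemma Bf_eq (Q : Fin 6 → ℤ) (p q : Pt) : Bf Q p q = Q 0 * (2 * (p.1 * q.1)) +
    Q 1 * (p.1 * q.2.1 + q.1 * p.2.1) + Q 2 * (2 * (p.2.1 * q.2.1)) + Q 3 * (p.1 * q.2.2 + q.1 * p.2.2) +
    Q 4 * (p.2.1 * q.2.2 + q.2.1 * p.2.2) + Q 5 * (2 * (p.2.2 * q.2.2)) := by
  unfold Bf
  rw [Qf_eq, Qf_eq, Qf_eq]
  simp only [Prod.fst_add, Prod.snd_add]
  ring

/-- the functional `α a + β u' + γ v'` -/
private def Nf (p0 f1 f2 : Pt) (α β γ : ℤ) : Pt :=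
  (α * (crs f1 f2).1 + β * (crs f2 p0).1 + γ * (crs p0 f1).1,
    α * (crs f1 f2).2.1 + β * (crs f2 p0).2.1 + γ * (crs p0 f1).2.1,
    α * (crs f1 f2).2.2 + β * (crs f2 p0).2.2 + γ * (crs p0 f1).2.2)

private lemma dot_Nf (p0 f1 f2 : Pt) (α β γ : ℤ) (p : Pt) :
    dot (Nf p0 f1 f2 α β γ) p = α * det3 p f1 f2 + β * det3 p0 p f2 + γ * det3 p0 f1 p := by
  unfold Nf dot det3 dot crs
  simp only
  ring

private lemma Nf_ne (p0 f1 f2 : Pt) (h : det3 p0 f1 f2 = 1) (α β γ : ℤ) (h0 : α ≠ 0 ∨ β ≠ 0 ∨ γ ≠ 0) :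
    Nf p0 f1 f2 α β γ ≠ 0 := by
  intro hN
  have hz : ∀ p, dot (Nf p0 f1 f2 α β γ) p = 0 := by
    intro p
    rw [hN]
    unfold dot
    simp
  have e1 := hz p0
  have e2 := hz f1
  have e3 := hz f2
  rw [dot_Nf] at e1 e2 e3
  have z1 : det3 p0 p0 f2 = 0 := by unfold det3 dot crs; simp only; ring
  have z2 : det3 p0 f1 p0 = 0 := by unfold det3 dot crs; simp only; ring
  have z3 : det3 f1 f1 f2 = 0 := by unfold det3 dot crs; simp only; ring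
  have z4 : det3 p0 f1 f1 = 0 := by unfold det3 dot crs; simp only; ring
  have z5 : det3 f2 f1 f2 = 0 := by unfold det3 dot crs; simp only; ring
  have z6 : det3 p0 f2 f2 = 0 := by unfold det3 dot crs; simp only; ring
  rw [h, z1, z2] at e1
  rw [z3, h, z4] at e2
  rw [z5, z6, h] at e3
  rcases h0 with h0 | h0 | h0
  · apply h0; linarith
  · apply h0; linarith
  · apply h0; linarith

/-- Cramer's rule and the expansion of the quadratic form -/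
private lemma Qf_exp (Q : Fin 6 → ℤ) (p0 f1 f2 p : Pt) (h : det3 p0 f1 f2 = 1) (h0 : Qf Q p0 = 0) :
    Qf Q p = det3 p f1 f2 * (Bf Q p0 f1 * det3 p0 p f2 + Bf Q p0 f2 * det3 p0 f1 p) +
      (Qf Q f1 * det3 p0 p f2 ^ 2 + Bf Q f1 f2 * (det3 p0 p f2 * det3 p0 f1 p) +
        Qf Q f2 * det3 p0 f1 p ^ 2) := by
  have c1 : p.1 = det3 p f1 f2 * p0.1 + det3 p0 p f2 * f1.1 + det3 p0 f1 p * f2.1 := by
    have : det3 p0 f1 f2 * p.1 = det3 p f1 f2 * p0.1 + det3 p0 p f2 * f1.1 + det3 p0 f1 p * f2.1 := by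
      unfold det3 dot crs
      simp only
      ring
    rwa [h, one_mul] at this
  have c2 : p.2.1 = det3 p f1 f2 * p0.2.1 + det3 p0 p f2 * f1.2.1 + det3 p0 f1 p * f2.2.1 := by
    have : det3 p0 f1 f2 * p.2.1 =
        det3 p f1 f2 * p0.2.1 + det3 p0 p f2 * f1.2.1 + det3 p0 f1 p * f2.2.1 := by
      unfold det3 dot crs
      simp only
      ring
    rwa [h, one_mul] at this
  have c3 : p.2.2 = det3 p f1 f2 * p0.2.2 + det3 p0 p f2 * f1.2.2 + det3 p0 f1 p * f2.2.2 := by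
    have : det3 p0 f1 f2 * p.2.2 =
        det3 p f1 f2 * p0.2.2 + det3 p0 p f2 * f1.2.2 + det3 p0 f1 p * f2.2.2 := by
      unfold det3 dot crs
      simp only
      ring
    rwa [h, one_mul] at this
  generalize det3 p f1 f2 = a at c1 c2 c3 ⊢
  generalize det3 p0 p f2 = u at c1 c2 c3 ⊢
  generalize det3 p0 f1 p = v at c1 c2 c3 ⊢
  rw [Qf_eq] at h0
  rw [Qf_eq Q p, Qf_eq Q f1, Qf_eq Q f2, Bf_eq, Bf_eq, Bf_eq, c1, c2, c3]
  linear_combination a ^ 2 * h0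

/-- Module DEG. -/
theorem hDEG : StDEG := by
  intro Q p0 f1 f2 hQ hdet h0 hcase S hS
  -- notation
  obtain ⟨b1, hb1⟩ : ∃ b1, Bf Q p0 f1 = b1 := ⟨_, rfl⟩
  obtain ⟨b2, hb2⟩ : ∃ b2, Bf Q p0 f2 = b2 := ⟨_, rfl⟩
  obtain ⟨q0, hq0⟩ : ∃ q0, Qf Q f1 = q0 := ⟨_, rfl⟩
  obtain ⟨q1, hq1⟩ : ∃ q1, Bf Q f1 f2 = q1 := ⟨_, rfl⟩
  obtain ⟨q2, hq2⟩ : ∃ q2, Qf Q f2 = q2 := ⟨_, rfl⟩
  have hexp : ∀ p, Qf Q p = det3 p f1 f2 * (b1 * det3 p0 p f2 + b2 * det3 p0 f1 p) +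
      (q0 * det3 p0 p f2 ^ 2 + q1 * (det3 p0 p f2 * det3 p0 f1 p) + q2 * det3 p0 f1 p ^ 2) := by
    intro p
    rw [Qf_exp Q p0 f1 f2 p hdet h0, hb1, hb2, hq0, hq1, hq2]
  have hR : RR Q p0 f1 f2 = q0 * b2 ^ 2 - q1 * (b1 * b2) + q2 * b1 ^ 2 := by
    unfold RR qq lf
    rw [hb1, hb2]
    rw [Qf_eq]
    rw [Qf_eq] at hq0 hq2
    rw [Bf_eq] at hq1
    rw [← hq0, ← hq1, ← hq2]
    simp only [Prod.fst_add, Prod.snd_add, Prod.smul_fst, Prod.smul_snd, smul_eq_mul]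
    ring
  by_cases hb : b1 = 0 ∧ b2 = 0
  · obtain ⟨hb1', hb2'⟩ := hb
    -- the binary form is not zero
    have hq : ¬ (q0 = 0 ∧ q1 = 0 ∧ q2 = 0) := by
      rintro ⟨z0, z1, z2⟩
      apply hQ
      have hall : ∀ p, Qf Q p = 0 := by
        intro p
        rw [hexp p, hb1', hb2', z0, z1, z2]
        ring
      have a1 := hall (1, 0, 0)
      have a2 := hall (0, 1, 0)
      have a3 := hall (0, 0, 1)
      have a4 := hall (1, 1, 0)
      have a5 := hall (1, 0, 1)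
      have a6 := hall (0, 1, 1)
      rw [Qf_eq] at a1 a2 a3 a4 a5 a6
      simp only at a1 a2 a3 a4 a5 a6
      funext i
      fin_cases i
      · change Q 0 = 0
        linarith
      · change Q 1 = 0
        linarith
      · change Q 2 = 0
        linarith
      · change Q 3 = 0
        linarith
      · change Q 4 = 0
        linarith
      · change Q 5 = 0
        linarith
    have hbin : ∀ p ∈ S, q0 * det3 p0 p f2 ^ 2 + q1 * (det3 p0 p f2 * det3 p0 f1 p) +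
        q2 * det3 p0 f1 p ^ 2 = 0 := by
      intro p hp
      have h1 := hS p hp
      rw [hexp p, hb1', hb2'] at h1
      linarith
    by_cases hS0 : ∀ p ∈ S, det3 p0 p f2 = 0
    · refine ⟨Nf p0 f1 f2 0 1 0, Nf p0 f1 f2 0 1 0, ?_, ?_, ?_⟩
      · exact Nf_ne p0 f1 f2 hdet 0 1 0 (Or.inr (Or.inl one_ne_zero))
      · exact Nf_ne p0 f1 f2 hdet 0 1 0 (Or.inr (Or.inl one_ne_zero))
      · intro p hp
        left
        rw [dot_Nf, hS0 p hp]
        ring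
    · push Not at hS0
      obtain ⟨p1, hp1, hU1⟩ := hS0
      generalize hU : det3 p0 p1 f2 = U1 at hU1
      obtain ⟨V1, hV⟩ : ∃ V1, det3 p0 f1 p1 = V1 := ⟨_, rfl⟩
      have hz := hbin p1 hp1
      rw [hU, hV] at hz
      refine ⟨Nf p0 f1 f2 0 V1 (-U1), Nf p0 f1 f2 0 (q2 * V1 + q1 * U1) (q2 * U1), ?_, ?_, ?_⟩
      · exact Nf_ne p0 f1 f2 hdet _ _ _ (Or.inr (Or.inr (neg_ne_zero.2 hU1)))
      · refine Nf_ne p0 f1 f2 hdet _ _ _ (Or.inr ?_)
        by_contra hcon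
        push Not at hcon
        obtain ⟨c1, c2⟩ := hcon
        have z2 : q2 = 0 := (mul_eq_zero.1 c2).resolve_right hU1
        rw [z2, zero_mul, zero_add] at c1
        have z1 : q1 = 0 := (mul_eq_zero.1 c1).resolve_right hU1
        rw [z1, z2] at hz
        have z0 : q0 * U1 ^ 2 = 0 := by linarith
        exact hq ⟨(mul_eq_zero.1 z0).resolve_right (pow_ne_zero 2 hU1), z1, z2⟩
      · intro p hp
        have h1 := hbin p hp
        rw [dot_Nf, dot_Nf]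
        have h2 : (0 * det3 p f1 f2 + V1 * det3 p0 p f2 + -U1 * det3 p0 f1 p) *
            (0 * det3 p f1 f2 + (q2 * V1 + q1 * U1) * det3 p0 p f2 + q2 * U1 * det3 p0 f1 p) = 0 := by
          linear_combination (-U1 ^ 2) * h1 + det3 p0 p f2 ^ 2 * hz
        exact mul_eq_zero.1 h2
  · -- `b ≠ 0`, `R = 0`
    have hR0 : q0 * b2 ^ 2 - q1 * (b1 * b2) + q2 * b1 ^ 2 = 0 := by
      rcases hcase with h | h
      · exfalso
        apply hb
        rw [← hb1, ← hb2]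
        exact h
      · rw [← hR]
        exact h
    have hbor : b1 ≠ 0 ∨ b2 ≠ 0 := by
      by_contra hcon
      push Not at hcon
      exact hb hcon
    rcases hbor with hb1' | hb2'
    · refine ⟨Nf p0 f1 f2 0 b1 b2, Nf p0 f1 f2 (b1 ^ 2) (q0 * b1) (q1 * b1 - q0 * b2), ?_, ?_, ?_⟩
      · exact Nf_ne p0 f1 f2 hdet _ _ _ (Or.inr (Or.inl hb1'))
      · exact Nf_ne p0 f1 f2 hdet _ _ _ (Or.inl (pow_ne_zero 2 hb1'))
      · intro p hp
        have h1 := hS p hp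
        rw [hexp p] at h1
        rw [dot_Nf, dot_Nf]
        have h2 : (0 * det3 p f1 f2 + b1 * det3 p0 p f2 + b2 * det3 p0 f1 p) *
            (b1 ^ 2 * det3 p f1 f2 + q0 * b1 * det3 p0 p f2 + (q1 * b1 - q0 * b2) * det3 p0 f1 p) = 0 := by
          linear_combination b1 ^ 2 * h1 - det3 p0 f1 p ^ 2 * hR0
        exact mul_eq_zero.1 h2
    · refine ⟨Nf p0 f1 f2 0 b1 b2, Nf p0 f1 f2 (b2 ^ 2) (q1 * b2 - q2 * b1) (q2 * b2), ?_, ?_, ?_⟩
      · exact Nf_ne p0 f1 f2 hdet _ _ _ (Or.inr (Or.inr hb2'))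
      · exact Nf_ne p0 f1 f2 hdet _ _ _ (Or.inl (pow_ne_zero 2 hb2'))
      · intro p hp
        have h1 := hS p hp
        rw [hexp p] at h1
        rw [dot_Nf, dot_Nf]
        have h2 : (0 * det3 p f1 f2 + b1 * det3 p0 p f2 + b2 * det3 p0 f1 p) *
            (b2 ^ 2 * det3 p f1 f2 + (q1 * b2 - q2 * b1) * det3 p0 p f2 + q2 * b2 * det3 p0 f1 p) = 0 := by
          linear_combination b2 ^ 2 * h1 - det3 p0 p f2 ^ 2 * hR0
        exact mul_eq_zero.1 h2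

end Pool.Agent.Helper37.PW
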